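import Pool.Agent.H65.AP.Targets

/-!
# MP_0ee698_an, row HOL: removing a ball does not disconnect
-/

set_option autoImplicit false

open MeasureTheory Set Filter Topology Metric
open scoped ENNReal NNReal ContDiff RealInnerProductSpace

namespace Pool.Agent.H89.AP

open Pool.Agent.H94.IC Pool.Agent.H94.AC Pool.Agent.H92.CK Pool.Agent.H65.AP

/-- annuli are connected -/
lemma ann_preconn (x : E) (a b : ℝ) (ha : 0 < a) :
    IsPreconnected (ball x b \ closedBall x a) := by
  have hrank : 1 < Module.rank ℝ E := by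
    rw [← Module.finrank_eq_rank]
    simp
  have h1 : IsPreconnected (Ioo a b ×ˢ sphere (0 : E) 1) :=
    isPreconnected_Ioo.prod (isPreconnected_sphere hrank 0 1)
  have h2 : ball x b \ closedBall x a =
      (fun q : ℝ × E => x + q.1 • q.2) '' (Ioo a b ×ˢ sphere (0 : E) 1) := by
    ext y
    simp only [Set.mem_sdiff, mem_ball, mem_closedBall, not_le, dist_eq_norm, mem_image, mem_prod,
      mem_Ioo, mem_sphere_iff_norm, sub_zero, Prod.exists]
    constructor
    · rintro ⟨hb, hya⟩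
      have hx0 : 0 < ‖y - x‖ := ha.trans hya
      refine ⟨‖y - x‖, ‖y - x‖⁻¹ • (y - x), ⟨⟨hya, hb⟩, ?_⟩, ?_⟩
      · rw [norm_smul, norm_inv, norm_norm]
        exact inv_mul_cancel₀ hx0.ne'
      · rw [smul_smul, mul_inv_cancel₀ hx0.ne', one_smul, add_sub_cancel]
    · rintro ⟨t, v, ⟨⟨ht, ht'⟩, hv⟩, rfl⟩
      rw [add_sub_cancel_left, norm_smul, hv, mul_one, Real.norm_eq_abs,
        abs_of_pos (ha.trans ht)]
      exact ⟨ht', ht⟩
  rw [h2]
  exact h1.image _ (by fun_prop)

/-- the main step -/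
lemma hol_core (W : Set E) (x : E) (a b : ℝ) (hW : IsPreconnected W) (ha : 0 < a) (hab : a < b)
    (hbW : ball x b ⊆ W) (u v : Set E) (hu : IsOpen u) (hv : IsOpen v) (huv : Disjoint u v)
    (hcov : W \ closedBall x a ⊆ u ∪ v) (hvs : v ⊆ W \ closedBall x a) (hv0 : v.Nonempty)
    (hann : ball x b \ closedBall x a ⊆ u) : False := by
  obtain ⟨y, -, hy1, hy2⟩ := hW (u ∪ ball x b) v (hu.union isOpen_ball) hv (by
      intro y hy
      by_cases h : y ∈ closedBall x a
      · exact Or.inl (Or.inr (closedBall_subset_ball hab h))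
      · rcases hcov ⟨hy, h⟩ with h1 | h1
        · exact Or.inl (Or.inl h1)
        · exact Or.inr h1)
    ⟨x, hbW (mem_ball_self (ha.trans hab)), Or.inr (mem_ball_self (ha.trans hab))⟩ (by
      obtain ⟨y, hy⟩ := hv0
      exact ⟨y, (hvs hy).1, hy⟩)
  rcases hy1 with h | h
  · exact Set.disjoint_left.1 huv h hy2
  · exact Set.disjoint_left.1 huv (hann ⟨h, (hvs hy2).2⟩) hy2

theorem pf_HOL : T_HOL := by
  intro W x a b hWo hW ha hab hbW u v hu hv hsub hsu hsv
  by_contra hcon
  have hso : IsOpen (W \ closedBall x a) := hWo.sdiff isClosed_closedBall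
  have hdis : Disjoint (u ∩ (W \ closedBall x a)) (v ∩ (W \ closedBall x a)) := by
    rw [Set.disjoint_left]
    rintro y ⟨h1, h2⟩ ⟨h3, -⟩
    exact hcon ⟨y, h2, h1, h3⟩
  have hcov : W \ closedBall x a ⊆ (u ∩ (W \ closedBall x a)) ∪ (v ∩ (W \ closedBall x a)) := by
    intro y hy
    rcases hsub hy with h | h
    · exact Or.inl ⟨h, hy⟩
    · exact Or.inr ⟨h, hy⟩
  have hann : ball x b \ closedBall x a ⊆
      (u ∩ (W \ closedBall x a)) ∪ (v ∩ (W \ closedBall x a)) := fun y hy =>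
    hcov ⟨hbW hy.1, hy.2⟩
  obtain ⟨p, hp1, hp2⟩ := hsu
  obtain ⟨q, hq1, hq2⟩ := hsv
  rcases (ann_preconn x a b ha).subset_or_subset (hu.inter hso) (hv.inter hso) hdis hann
    with h | h
  · exact hol_core W x a b hW ha hab hbW _ _ (hu.inter hso) (hv.inter hso) hdis hcov
      inter_subset_right ⟨q, hq2, hq1⟩ h
  · exact hol_core W x a b hW ha hab hbW _ _ (hv.inter hso) (hu.inter hso) hdis.symm
      (by rwa [union_comm]) inter_subset_right ⟨p, hp2, hp1⟩ h

end Pool.Agent.H89.AP
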