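import Pool.Agent.H65.AP.Targets

/-!
# MP_0ee698_an, row RMN: smaller parameters
-/

set_option autoImplicit false

open MeasureTheory Set Filter Topology Metric
open scoped ENNReal NNReal ContDiff RealInnerProductSpace

namespace Pool.Agent.H89.AP

open Pool.Agent.H94.IC Pool.Agent.H94.AC Pool.Agent.H92.CK Pool.Agent.H65.AP

theorem pf_RMN : T_RMN := by
  intro S r r' _ hr' hrr
  refine ⟨fun h x p hp h0 hlt hd => ?_, ?_⟩
  · have hz := h x p hp h0 (lt_of_lt_of_le hlt hrr) hd
    have hn : ‖x - p‖ = dist x p := (dist_eq_norm x p).symm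
    have hd0 : dist x p ≠ 0 := h0.ne'
    refine le_antisymm ?_ ?_
    · refine (infDist_le_dist_of_mem hp).trans (le_of_eq ?_)
      rw [dist_eq_norm, add_sub_cancel_left, norm_smul, hn, Real.norm_eq_abs,
        abs_of_pos (div_pos hr' h0)]
      field_simp
    · have h1 := infDist_le_infDist_add_dist (s := S) (x := p + (r / dist x p) • (x - p))
        (y := p + (r' / dist x p) • (x - p))
      have h2 : dist (p + (r / dist x p) • (x - p)) (p + (r' / dist x p) • (x - p)) = r - r' := by
        rw [dist_eq_norm, add_sub_add_left_eq_sub, ← sub_smul, norm_smul, hn, Real.norm_eq_abs,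
          ← sub_div, abs_of_nonneg (div_nonneg (by linarith) h0.le)]
        field_simp
      rw [hz, h2] at h1
      linarith
  · rintro ⟨H, hH⟩
    exact ⟨H, hH.cont, hH.zero, hH.out, fun x hx => hrr.trans (hH.far x hx), hH.inf⟩

end Pool.Agent.H89.AP
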